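import Pool.Agent.helper42.NS.Spec

/-!
# Row ISO of project nos
-/

set_option autoImplicit false

namespace Pool.Agent.helper42.NS

open Polynomial Matrix

theorem ISO (h1 : MOM_stmt) (h2 : RIG_stmt) : ISO_stmt := by
  intro m k F
  set S : Set (Matrix (Fin m) (Fin m) ℤ) := {H | IsGr H ∧ ∃ B : Fin k → Fin m → Bool,
    Kry H (Set.range fun i => ind (B i)) = ⊤ ∧
    ∀ i j, (dbl H (ext B i) (ext B j)).charpoly = F i j} with hS
  rcases S.eq_empty_or_nonempty with he | ⟨H0, hH0⟩
  · rw [he, Set.ncard_empty]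
    exact Nat.zero_le _
  · obtain ⟨hg0, B0, hk0, hF0⟩ := hH0
    set f : Equiv.Perm (Fin m) → Matrix (Fin m) (Fin m) ℤ :=
      fun σ => Matrix.of fun a b => H0 (σ.symm a) (σ.symm b) with hf
    have hsub : S ⊆ Set.range f := by
      rintro H ⟨hg, B, hk, hF⟩
      have hmom : ∀ i j l, mom H0 (B0 i) (B0 j) l = mom H (B i) (B j) l := by
        intro i j l
        refine h1 m H0 H (B0 i) (B0 j) (B i) (B j) hg0 hg ?_ ?_ ?_ ?_ l
        · exact (hF0 0 0).trans (hF 0 0).symm
        · exact (hF0 i.succ 0).trans (hF i.succ 0).symm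
        · exact (hF0 j.succ 0).trans (hF j.succ 0).symm
        · exact (hF0 i.succ j.succ).trans (hF i.succ j.succ).symm
      obtain ⟨σ, hσ⟩ := h2 m k H0 H B0 B hg0 hg hk0 hmom
      refine ⟨σ, ?_⟩
      ext a b
      have h3 := hσ (σ.symm a) (σ.symm b)
      rw [Equiv.apply_symm_apply, Equiv.apply_symm_apply] at h3
      exact h3.symm
    calc S.ncard ≤ (Set.range f).ncard := Set.ncard_le_ncard hsub (Set.finite_range f)
      _ = (f '' Set.univ).ncard := by rw [Set.image_univ]
      _ ≤ (Set.univ : Set (Equiv.Perm (Fin m))).ncard := Set.ncard_image_le Set.finite_univ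
      _ = m.factorial := by
        rw [Set.ncard_univ, Nat.card_eq_fintype_card, Fintype.card_perm, Fintype.card_fin]

end Pool.Agent.helper42.NS
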