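import Pool.Agent.helper42.NS.Spec2

/-!
# Row CRE of project nos2
-/

set_option autoImplicit false

namespace Pool.Agent.helper42.NS

open Polynomial Matrix

theorem CRE_aux (K : Type) [Field K] (lam : K) (t k : ℕ) (H : Matrix (Fin t) (Fin t) ℤ)
    (B : Fin k → Fin t → Bool) (hk : k < Module.finrank K (EigK K lam H)) :
    ∃ u ∈ EigK K lam H, u ≠ 0 ∧ ∀ i, dotb (B i) u = 0 := by
  classical
  set f : (Fin t → K) →ₗ[K] (Fin k → K) :=
    LinearMap.pi fun i => ∑ j, if B i j then LinearMap.proj j else 0 with hf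
  have hfa : ∀ u i, f u i = dotb (B i) u := by
    intro u i
    simp only [hf, LinearMap.pi_apply, LinearMap.sum_apply, dotb]
    refine Finset.sum_congr rfl fun j _ => ?_
    by_cases h : B i j = true
    · rw [if_pos h, if_pos h]
      rfl
    · rw [if_neg h, if_neg h]
      rfl
  have h1 : LinearMap.ker (f.domRestrict (EigK K lam H)) ≠ ⊥ := by
    apply LinearMap.ker_ne_bot_of_finrank_lt
    rw [Module.finrank_fin_fun]
    exact hk
  obtain ⟨u, hu, hu0⟩ := (Submodule.ne_bot_iff _).1 h1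
  refine ⟨(u : Fin t → K), u.2, ?_, ?_⟩
  · intro h
    exact hu0 (Subtype.ext h)
  · intro i
    rw [← hfa]
    have h2 : f (u : Fin t → K) = 0 := hu
    rw [h2]
    rfl

theorem CRE (h1 : EXS_stmt) (h2 : PTQ_stmt) : CRE_stmt := by
  intro a t p H ha hp hpa hH hR ht hc s hs
  obtain ⟨B, hB⟩ := h1 a t p H ha hp hpa hH.2.2 hR ht hc
  have hbad : ∀ P ∈ s, Bad P H B := by
    intro P hP
    letI : Field (KP P) := Ideal.Quotient.field P.asIdeal
    exact CRE_aux (KP P) (lamP P) t 36 H B (by
      have := hs P hP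
      exact Nat.lt_of_lt_of_le (by norm_num) this)
  have h3 := h2 t 36 (10 * a + 3) p H B hp hH
    (ht.trans (Nat.pow_le_pow_right (by norm_num) (by omega))) hB s hbad
  have e : 4 * (10 * a + 3) + 1 = 40 * a + 13 := by ring
  rwa [e] at h3

end Pool.Agent.helper42.NS
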