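import Pool.Agent.helper42.NS.Spec2

/-!
# Row PSS of project nos2
-/

set_option autoImplicit false

namespace Pool.Agent.helper42.NS

open Polynomial Matrix

theorem PSS_exp (a : ℕ) (ha : 15 ≤ a) : a * (50 * a + 19) ≤ 2 ^ a := by
  induction a, ha using Nat.le_induction with
  | base => norm_num
  | succ a ha ih =>
    rw [pow_succ]
    nlinarith

theorem PSS (h1 : VTX_stmt) (h2 : VT2_stmt) (h3 : FIN_stmt) (h4 : LCA_stmt) : PSS_stmt := by
  intro a t P H ha hsym hR hq hc
  classical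
  letI : Field (KP P) := Ideal.Quotient.field P.asIdeal
  obtain ⟨hfinK, p, hp, hAb, huniq, d, hd, hqd⟩ := h3 P
  have hv1 : ∀ b : Fin t → Bool, crk P (bord H (ind b)) ≤ crk P H + 1 :=
    fun b => (h1 (KP P) (lamP P) t H b hsym).1
  have hv2 : ∀ b : Fin t → Bool, (∃ u ∈ EigK (KP P) (lamP P) H, dotb b u ≠ 0) →
      crk P (bord H (ind b)) + 1 ≤ crk P H :=
    fun b hb => h2 (KP P) (lamP P) t H b hsym hb
  have hpq : p ≤ qP P := by
    rw [hqd]
    exact Nat.le_self_pow hd.ne' p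
  have hq2 : 2 ≤ qP P := hp.two_le.trans hpq
  have hp3 : p < 2 ^ (3 * a) := by
    refine (hpq.trans_lt hq).trans_le (Nat.pow_le_pow_right (by norm_num) (by omega))
  have hq60 : qP P ≤ p ^ (60 * a) := by
    calc qP P ≤ 2 ^ a := hq.le
      _ ≤ p ^ a := Nat.pow_le_pow_left hp.two_le a
      _ ≤ p ^ (60 * a) := Nat.pow_le_pow_right hp.pos (by omega)
  have hL := h4 a t p P H (EigK (KP P) (lamP P) H) hp hAb hp3 hq60 hR le_rfl
  set A : Finset (Fin t → Bool) :=
    Finset.univ.filter (fun b => ∀ u ∈ EigK (KP P) (lamP P) H, dotb b u = 0) with hAdef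
  have hAc : Set.ncard {b : Fin t → Bool | ∀ u ∈ EigK (KP P) (lamP P) H, dotb b u = 0} =
      A.card := by
    rw [← Set.ncard_coe_finset]
    congr 1
    ext b
    simp [hAdef]
  rw [hAc] at hL
  have hcr : Module.finrank (KP P) (EigK (KP P) (lamP P) H) = crk P H := rfl
  set c : ℕ := crk P H with hcdef
  set q : ℕ := qP P with hqdef
  have hL' : (A.card : ℝ) ≤ 2 ^ t * (1 / (q : ℝ) ^ c + 1 / 2 ^ (2 ^ a)) := hL
  have hqR : (2 : ℝ) ≤ (q : ℝ) := by exact_mod_cast hq2
  have hqpos : (0 : ℝ) < (q : ℝ) := by linarith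
  have hcardB : (Finset.univ : Finset (Fin t → Bool)).card = 2 ^ t := by
    rw [Finset.card_univ, Fintype.card_fun, Fintype.card_bool, Fintype.card_fin]
  have h2t : (0 : ℝ) < (2 : ℝ) ^ t := by positivity
  rcases Nat.eq_zero_or_pos c with hc0 | hcpos
  · have hle : ∀ b ∈ (Finset.univ : Finset (Fin t → Bool)),
        (q : ℝ) ^ crk P (bord H (ind b)) ≤ (q : ℝ) := by
      intro b _
      have h5 := hv1 b
      rw [hc0] at h5
      calc (q : ℝ) ^ crk P (bord H (ind b)) ≤ (q : ℝ) ^ 1 :=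
            pow_le_pow_right₀ (by linarith) (by omega)
        _ = (q : ℝ) := pow_one _
    have h5 := Finset.sum_le_card_nsmul _ _ _ hle
    rw [hcardB, nsmul_eq_mul] at h5
    push_cast at h5
    refine h5.trans ?_
    apply mul_le_mul_of_nonneg_left _ h2t.le
    have : (0 : ℝ) < (q : ℝ) ^ c := by positivity
    linarith
  · have hsplit : (∑ b : Fin t → Bool, (q : ℝ) ^ crk P (bord H (ind b))) ≤
        (A.card : ℝ) * (q : ℝ) ^ (c + 1) + 2 ^ t * (q : ℝ) ^ (c - 1) := by
      have h5 : ∀ b ∈ (Finset.univ : Finset (Fin t → Bool)),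
          (q : ℝ) ^ crk P (bord H (ind b)) ≤
            (if b ∈ A then (q : ℝ) ^ (c + 1) else 0) + (q : ℝ) ^ (c - 1) := by
        intro b _
        by_cases hb : b ∈ A
        · rw [if_pos hb]
          have h6 : (q : ℝ) ^ crk P (bord H (ind b)) ≤ (q : ℝ) ^ (c + 1) :=
            pow_le_pow_right₀ (by linarith) (hv1 b)
          have h7 : (0 : ℝ) < (q : ℝ) ^ (c - 1) := by positivity
          linarith
        · rw [if_neg hb, zero_add]
          have h6 : ∃ u ∈ EigK (KP P) (lamP P) H, dotb b u ≠ 0 := by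
            by_contra hcon
            apply hb
            rw [hAdef, Finset.mem_filter]
            refine ⟨Finset.mem_univ b, fun u hu => ?_⟩
            by_contra h8
            exact hcon ⟨u, hu, h8⟩
          have h7 := hv2 b h6
          exact pow_le_pow_right₀ (by linarith) (by omega)
      refine (Finset.sum_le_sum h5).trans (le_of_eq ?_)
      rw [Finset.sum_add_distrib, Finset.sum_const, hcardB, nsmul_eq_mul, Finset.sum_ite_mem,
        Finset.univ_inter, Finset.sum_const, nsmul_eq_mul]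
      push_cast
      ring
    have hpc : (q : ℝ) ^ (c - 1) ≤ (q : ℝ) ^ c / 2 := by
      obtain ⟨e, he⟩ : ∃ e, c = e + 1 := ⟨c - 1, by omega⟩
      rw [he, Nat.add_sub_cancel, pow_succ]
      have h6 : (0 : ℝ) < (q : ℝ) ^ e := by positivity
      rw [le_div_iff₀ (by norm_num)]
      exact mul_le_mul_of_nonneg_left hqR h6.le
    have hbig : (q : ℝ) ^ (c + 1) ≤ 2 ^ (2 ^ a) := by
      have h6 : (q : ℝ) ≤ 2 ^ a := by exact_mod_cast hq.le
      calc (q : ℝ) ^ (c + 1) ≤ ((2 : ℝ) ^ a) ^ (c + 1) := pow_le_pow_left₀ hqpos.le h6 _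
        _ = 2 ^ (a * (c + 1)) := by rw [pow_mul]
        _ ≤ 2 ^ (2 ^ a) := by
          apply pow_le_pow_right₀ (by norm_num)
          refine le_trans ?_ (PSS_exp a ha)
          exact Nat.mul_le_mul_left a (by omega)
    have hA2 : (A.card : ℝ) * (q : ℝ) ^ (c + 1) ≤ 2 ^ t * ((q : ℝ) + 1) := by
      calc (A.card : ℝ) * (q : ℝ) ^ (c + 1)
          ≤ (2 ^ t * (1 / (q : ℝ) ^ c + 1 / 2 ^ (2 ^ a))) * (q : ℝ) ^ (c + 1) :=
            mul_le_mul_of_nonneg_right hL' (by positivity)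
        _ = 2 ^ t * ((1 / (q : ℝ) ^ c) * (q : ℝ) ^ (c + 1) +
              (q : ℝ) ^ (c + 1) / 2 ^ (2 ^ a)) := by ring
        _ ≤ 2 ^ t * ((q : ℝ) + 1) := by
          apply mul_le_mul_of_nonneg_left _ h2t.le
          have h7 : (1 / (q : ℝ) ^ c) * (q : ℝ) ^ (c + 1) = (q : ℝ) := by
            rw [pow_succ]
            field_simp
          have h8 : (q : ℝ) ^ (c + 1) / 2 ^ (2 ^ a) ≤ 1 := by
            rw [div_le_one (by positivity)]
            exact hbig
          rw [h7]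
          linarith
    calc (∑ b : Fin t → Bool, (q : ℝ) ^ crk P (bord H (ind b)))
        ≤ (A.card : ℝ) * (q : ℝ) ^ (c + 1) + 2 ^ t * (q : ℝ) ^ (c - 1) := hsplit
      _ ≤ 2 ^ t * ((q : ℝ) + 1) + 2 ^ t * ((q : ℝ) ^ c / 2) :=
          add_le_add hA2 (mul_le_mul_of_nonneg_left hpc h2t.le)
      _ = 2 ^ t * ((q : ℝ) ^ c / 2 + (q : ℝ) + 1) := by ring

end Pool.Agent.helper42.NS
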